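import Pool.Agent.Helper37.OF.St2

/-!
# Project OF (MP_121524_al), module CNT
-/

set_option autoImplicit false

namespace Pool.Agent.Helper60.OF

open Pool.Agent.Helper37.OF Monoid Pool.Agent.Helper4.FS

universe u v w x

/-- From a homomorphism injective on the subgroup to the local Freiheitssatz. -/
theorem lf_of_hom {G : Type w} [Group G] {I : Type x} {z : I} {R : Fp G I} {m : ℕ}
    {T : Type (max x w)} [Group T] (j : Sb G I {i | i ≠ z} →* T) (hj : Function.Injective j)
    (φ : Fp G I →* T) (hφ : ∀ y : Sb G I {i | i ≠ z}, φ y = j y) (hR : (φ R) ^ m = 1) :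
    LF R m z := by
  intro y hy hN
  have h1 : Subgroup.normalClosure ({R ^ m} : Set (Fp G I)) ≤ φ.ker := by
    apply Subgroup.normalClosure_le_normal
    intro a ha
    rw [Set.mem_singleton_iff] at ha
    rw [ha, SetLike.mem_coe, MonoidHom.mem_ker, map_pow, hR]
  have h2 : φ y = 1 := MonoidHom.mem_ker.1 (h1 hN)
  have h3 : j ⟨y, hy⟩ = j 1 := by
    rw [← hφ ⟨y, hy⟩, map_one]
    exact h2
  have h4 := hj h3
  exact congrArg Subtype.val h4

/-- Lists in a subgroup. -/
theorem lift_list {H : Type u} [Group H] (D : Subgroup H) (U : List (H × Bool))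
    (hU : ∀ p ∈ U, p.1 ∈ D) : ∃ V : List (D × Bool), U = V.map (fun p => ((p.1 : H), p.2)) := by
  induction U with
  | nil => exact ⟨[], rfl⟩
  | cons p U ih =>
    obtain ⟨V, hV⟩ := ih (fun q hq => hU q (List.mem_cons_of_mem _ hq))
    refine ⟨(⟨p.1, hU p (List.mem_cons_self ..)⟩, p.2) :: V, ?_⟩
    rw [List.map_cons, ← hV]

theorem all_of_count (U : List Bool) (b : Bool) (h : U.count (!b) = 0) : ∀ p ∈ U, p = b := by
  intro p hp
  by_contra hne
  have : p = !b := by
    cases p <;> cases b <;> simp_all
  rw [List.count_eq_zero] at h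
  exact h (this ▸ hp)

theorem two_of_count (U : List Bool) (h1 : U.count true = 1) (h2 : U.count false = 1) :
    U = [true, false] ∨ U = [false, true] := by
  have hl : U.length = 2 := by
    have := List.count_add_count_not U true
    simp only [Bool.not_true] at this
    omega
  match U, hl with
  | [a, b], _ =>
    cases a <;> cases b <;> simp at h1 h2 ⊢

/-- Module CNT. -/
theorem hCNT (hLVN : StLVN.{max x w}) (hTRG : StTRG.{max x w}) (hLFT : StLFT.{w, x})
    (hDEC : StDEC.{w, x}) : StCNT.{w, x} := by
  classical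
  intro G _ X τ z L m hm hδ hNC hS
  obtain ⟨U, y', hU, hy', hR, hct, hcf⟩ := hDEC G X τ z L
  set D : Subgroup (Fp G (Option X)) := Sb G (Option X) {i | i ≠ some z} with hD
  obtain ⟨V, hV⟩ := lift_list D U hU
  have hδ' : ∀ (T : Type (max x w)) [Group T] (t : T), ∃ δ : G →* T, δ τ = t := hδ
  -- the one sided case
  have one : ∀ b : Bool, (∀ p ∈ U.map Prod.snd, p = b) → LF (Wq τ L) m (some z) := by
    intro b hb
    have hb' : ∀ p ∈ V, p.2 = b := by
      intro p hp
      apply hb
      rw [hV, List.map_map, List.mem_map]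
      exact ⟨p, hp, rfl⟩
    set e' : Fp G (Option X) := if b = true then ofi (some z) τ else (ofi (some z) τ)⁻¹ with he'
    have hR' : Wq τ L = (V.map fun p => (p.1 : Fp G (Option X)) * e').prod * y' := by
      rw [hR, hV, List.map_map]
      congr 2
      apply List.map_congr_left
      intro p hp
      simp only [Function.comp_apply]
      rw [hb' p hp]
    cases V with
    | nil =>
      exfalso
      rw [List.map_nil, List.prod_nil, one_mul] at hR'
      refine hNC (Wq τ L) ?_ (IsConj.refl _)
      rw [hR']
      exact hy'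
    | cons q0 V' =>
      obtain ⟨T, iT, j, t, hj, hp⟩ := hLVN D ((⟨y', hy'⟩ * q0.1) :: V'.map Prod.fst)
        (List.cons_ne_nil _ _)
      letI := iT
      obtain ⟨φ, hφ, hφe⟩ := hLFT G (Option X) τ (some z) T j (if b = true then t else t⁻¹)
        (hδ' T _)
      refine lf_of_hom j hj φ hφ ?_
      have he : φ e' = t := by
        rw [he']
        cases b
        · simp only [Bool.false_eq_true, if_false] at hφe ⊢
          rw [map_inv, hφe, inv_inv]
        · simp only [if_true] at hφe ⊢
          exact hφe
      have hprod : φ ((V'.map fun p => (p.1 : Fp G (Option X)) * e').prod) =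
          ((V'.map Prod.fst).map fun y => j y * t).prod := by
        rw [map_list_prod, List.map_map, List.map_map]
        congr 1
        apply List.map_congr_left
        intro p _
        simp only [Function.comp_apply]
        rw [map_mul, he, hφ]
      rw [List.map_cons, List.prod_cons] at hp
      have h1 : φ (Wq τ L) = 1 := by
        rw [hR', List.map_cons, List.prod_cons, map_mul, map_mul, map_mul, hprod, he, hφ]
        have hy : φ y' = j ⟨y', hy'⟩ := hφ ⟨y', hy'⟩
        rw [hy]
        rw [map_mul] at hp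
        set P := ((V'.map Prod.fst).map fun y => j y * t).prod with hP
        have h2 : j q0.1 * t * P = (j ⟨y', hy'⟩)⁻¹ := by
          rw [eq_inv_iff_mul_eq_one]
          have h3 : j ⟨y', hy'⟩ * (j q0.1 * t * P) = 1 := by
            rw [← hp]
            group
          exact mul_eq_one_comm.1 h3
        rw [h2, inv_mul_cancel]
      rw [h1, one_pow]
  have hfst : (L.map fun p => (p.2.1, p.2.2.2)).map Prod.fst = L.map fun p => p.2.1 := by
    rw [List.map_map]
    rfl
  have hsnd : (L.map fun p => (p.2.1, p.2.2.2)).map Prod.snd = L.map fun p => p.2.2.2 := by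
    rw [List.map_map]
    rfl
  unfold Simple at hS
  rw [hfst, hsnd] at hS
  rcases hS with h | h | ⟨h1, h2⟩
  · refine one false (all_of_count _ _ ?_)
    rw [Bool.not_false, hct]
    exact List.count_eq_zero.2 h
  · refine one true (all_of_count _ _ ?_)
    rw [Bool.not_true, hcf]
    exact List.count_eq_zero.2 h
  · -- the two letter case
    have hc1 : (U.map Prod.snd).count true = 1 := by
      rw [hct]
      convert h1
    have hc2 : (U.map Prod.snd).count false = 1 := by
      rw [hcf]
      convert h2
    have hlen : U.length = 2 := by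
      rcases two_of_count _ hc1 hc2 with h | h
      · have := congrArg List.length h
        simpa using this
      · have := congrArg List.length h
        simpa using this
    have key : ∀ (u₁ u₂ : Fp G (Option X)) (b : Bool), U = [(u₁, b), (u₂, !b)] →
        LF (Wq τ L) m (some z) := by
      intro u₁ u₂ b hUe
      have hu₁ : u₁ ∈ D := hU (u₁, b) (by rw [hUe]; simp)
      have hu₂ : u₂ ∈ D := hU (u₂, !b) (by rw [hUe]; simp)
      set e' : Fp G (Option X) := if b = true then ofi (some z) τ else (ofi (some z) τ)⁻¹ with he'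
      have hR' : Wq τ L = u₁ * e' * (u₂ * e'⁻¹) * y' := by
        rw [hR, hUe]
        simp only [List.map_cons, List.map_nil, List.prod_cons, List.prod_nil, mul_one]
        rw [he']
        cases b <;> simp
      have hu₂1 : u₂ ≠ 1 := by
        intro h0
        refine hNC (Wq τ L) ?_ (IsConj.refl _)
        have : Wq τ L = u₁ * y' := by
          rw [hR', h0]
          group
        rw [this]
        exact D.mul_mem hu₁ hy'
      have hyu : y' * u₁ ≠ 1 := by
        intro h0
        have h3 : u₁ = y'⁻¹ := (inv_eq_of_mul_eq_one_right h0).symm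
        refine hNC u₂ hu₂ ?_
        rw [isConj_iff]
        refine ⟨e'⁻¹ * y', ?_⟩
        rw [hR', h3]
        group
      obtain ⟨T, iT, j, t, hj, hp⟩ := hTRG D ⟨y' * u₁, D.mul_mem hy' hu₁⟩ ⟨u₂, hu₂⟩
        (fun h0 => hyu (congrArg Subtype.val h0)) (fun h0 => hu₂1 (congrArg Subtype.val h0)) m hm
      letI := iT
      obtain ⟨φ, hφ, hφe⟩ := hLFT G (Option X) τ (some z) T j (if b = true then t else t⁻¹)
        (hδ' T _)
      refine lf_of_hom j hj φ hφ ?_
      have he : φ e' = t := by
        rw [he']
        cases b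
        · simp only [Bool.false_eq_true, if_false] at hφe ⊢
          rw [map_inv, hφe, inv_inv]
        · simp only [if_true] at hφe ⊢
          exact hφe
      have ha : j ⟨y' * u₁, D.mul_mem hy' hu₁⟩ = φ y' * φ u₁ := by
        rw [← map_mul]
        exact (hφ ⟨y' * u₁, D.mul_mem hy' hu₁⟩).symm
      have hb : j ⟨u₂, hu₂⟩ = φ u₂ := (hφ ⟨u₂, hu₂⟩).symm
      rw [ha, hb] at hp
      have h4 : φ (Wq τ L) = (φ y')⁻¹ * (φ y' * φ u₁ * t * φ u₂ * t⁻¹) * φ y' := by
        rw [hR', map_mul, map_mul, map_mul, map_mul, map_inv, he]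
        group
      have h5 : (φ (Wq τ L)) ^ m =
          (φ y')⁻¹ * (φ y' * φ u₁ * t * φ u₂ * t⁻¹) ^ m * φ y' := by
        rw [h4]
        have := conj_pow (i := m) (a := (φ y')⁻¹) (b := φ y' * φ u₁ * t * φ u₂ * t⁻¹)
        rw [inv_inv] at this
        exact this
      rw [h5, hp, mul_one, inv_mul_cancel]
    obtain ⟨⟨u₁, b₁⟩, ⟨u₂, b₂⟩, hUe⟩ : ∃ p q, U = [p, q] := List.length_eq_two.1 hlen
    refine key u₁ u₂ b₁ ?_
    rw [hUe] at hc1 hc2 ⊢
    cases b₁ <;> cases b₂ <;> simp at hc1 hc2 ⊢

end Pool.Agent.Helper60.OF
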